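import Pool.Agent.T9h42.DP.Fin
import Pool.Agent.T9h42.DP.Stm

/-!
# The assembly map in degree one for fields of positive characteristic

Let `k` be a field of characteristic `p > 0` and `G` a group. After tensoring with the rational
numbers the source of the assembly map in degree one for the family of the finite subgroups is the
sum of `colim K₁(k[H])` and the group of the symbols `[H, z, x]`, `x ∈ K₀(k[H])`, `z` in the
centralizer of `H`. It is shown that for every element of the kernel of the assembly map the
component in the second summand is, up to torsion, a combination of symbols `[C, z, x]` with `C`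
cyclic of order prime to `p` and `z` in the kernel of all homomorphisms from the centralizer of `C`
to the `p`-adic integers. So the assembly map is rationally injective in degree one if the
abelianizations of the centralizers of the finite cyclic subgroups are finitely generated.

The groups `K₁`, `GK1`, `ColimK1` and the map `assembly` are defined in `Pool.Agent.Y69.WhDef` and
`Pool.Agent.Y69.TK.KDef`, the group `K₀` in `Pool.Agent.Y778.NK.K0Def`, the group `ZK` and its
subgroup `Dv` in `Pool.Agent.T9h42.DP.SyK`, and the properties in `Pool.Agent.T9h42.DP.Stm`.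
-/

set_option autoImplicit false

namespace Pool.Agent.Results.MP_490288_al.DegreeOneCharP

open Pool.Agent.T9h42 Pool.Agent.Y69.FJK
open Pool.Agent.Y69 (FinSub)

theorem result (k G : Type) [Field k] [Group G] (p : ℕ) [Fact p.Prime] [CharP k p] :
    ∃ β : ZK k G →+ GK1 k G, IsTwist β ∧ KerIn β (Dv k G p) ∧ (PSep G p → RatInj β) ∧
      ((∀ C : FinSub G, IsCyclic C.1 → ¬ p ∣ Nat.card C.1 →
        Group.FG (Abelianization (Cz C.1))) → RatInj β) := by
  refine ⟨bt k G, ?_, ?_, ?_, ?_⟩
  · intro H z n e
    exact ⟨_, rfl, bt_mk k G H z n e⟩
  · intro x ξ n hn h
    exact main_k p k G x ξ n hn h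
  · intro hyp x ξ n hn h
    exact tors_all hyp x ξ n hn h
  · intro hfg x ξ n hn h
    refine tors_all (p := p) ?_ x ξ n hn h
    intro H z hH hp hχ
    have := hfg H hH hp
    obtain ⟨m, hm, h1⟩ := fg_hyp p (Abelianization.of z) fun χ => hχ (χ.comp Abelianization.of)
    refine ⟨m, hm, ?_⟩
    rw [← Abelianization.ker_of, MonoidHom.mem_ker, map_pow]
    exact h1

end Pool.Agent.Results.MP_490288_al.DegreeOneCharP
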