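import Pool.Agent.T9h42.GZ.MainZ

/-!
# The assembly map in degree zero for integral group rings

Let `P` be a set of primes, for instance the set of all primes. For a finite group `H` let `KM(P, H)`
be the cokernel of `K₀(ℚ[H]) → ⨁ K₀(ℚ_p[H]) / K₀(ℤ_p[H])`, `p` in `P`, which is `K₋₁(ℤ[H])` if `P`
is the set of all primes. For a group `G` let `KO(P, G)` be the cokernel of
`K₁(ℚ[G]) → ⨁ K₁(ℚ_p[G]) / K₁(ℤ_p[G])`, a subgroup of `K₀(ℤ[G])` if `P` is the set of all primes.
After tensoring with the rational numbers the source of the assembly map in degree zero for the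
family of the finite subgroups of `G` is the sum of the rational numbers (generated by the class of
`ℤ[G]`) and the group of the symbols `[H, z, x]`, `x ∈ KM(P, H)`, `z` in the centralizer of `H`. It
is shown that up to torsion every element of the kernel of the map from the group of symbols to
`KO(P, G)` is a combination of symbols `[C, z, x]` with `C` cyclic and `z` in the kernel of all
homomorphisms from the centralizer of `C` to the integers. So the assembly map is rationally
injective in degree zero if the abelianizations of the centralizers of the finite cyclic subgroups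
are finitely generated.

The groups `KM(P, H)` are defined in `Pool.Agent.Y778.NK.KMS`, the other groups and the properties in
`Pool.Agent.T9h42.GZ.StmZ`.
-/

set_option autoImplicit false

namespace Pool.Agent.Results.MP_490288_al.DegreeZeroIntegral

open Pool.Agent.T9h42 Pool.Agent.T9h42.KZ
open Pool.Agent.Y69 (FinSub)

theorem result (P : Set Nat.Primes) (G : Type) [Group G] :
    ∃ β : ZM P G →+ KO P G, IsTwistZ β ∧ KerInZ β (DvM P G) ∧ (ZSep G → RatInjZ β) ∧
      ((∀ C : FinSub G, IsCyclic C.1 → Group.FG (Abelianization (Cz C.1))) → RatInjZ β) := by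
  have h1 : KerInZ (bM P G) (DvM P G) := fun ξ n hn h => main ξ n hn h
  have h2 : ZSep G → RatInjZ (bM P G) := by
    intro hyp ξ n hn h
    obtain ⟨l, hl, h3⟩ := h1 ξ n hn h
    obtain ⟨m, hm, h4⟩ := dvM_tors hyp h3
    exact ⟨m * l, Nat.mul_pos hm hl, by rw [mul_smul, h4]⟩
  exact ⟨bM P G, isTwistZ, h1, h2, fun hfg => h2 (zsep_fg hfg)⟩

end Pool.Agent.Results.MP_490288_al.DegreeZeroIntegral
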