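import Pool.Agent.T9h42.Bridge

/-!
# The Dennis trace of `K₁(R[G])` vanishes at the `p`-singular elements of finite order

Let `G` be any group and `A` an invertible matrix over `R[G]`. The Dennis trace of `A` is a class in
`HH₁(R[G]) = ⨁ H₁(C_G(g); R)`, the sum over the conjugacy classes of `G`; the pairing
`∑ (A⁻¹)_{ij}(g) A_{ji}(h) f(g, h)` is the value of the Hochschild `1`-cocycle `f` on it. We prove,
for all groups, that it vanishes at the components of the elements of finite order which is
divisible by a prime `p` for which the coefficients are `p`-adically separated. This is the analogue
for `K₁` of the theorem of Swan, Bass and Linnell that the trace of a finitely generated projective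
`R[G]`-module vanishes at these elements. For `R = ℤ` these are all elements of finite order other
than `1`; for `R = ℤ_p` the elements of finite order divisible by `p`.

Outline of the proof. `(A⁻¹, A)` is expanded as a sum over the words
`(x_1, y_1, …, x_m, y_m)` of length `m = p ^ N`, on which the cyclic group of order `m` acts. As `f`
has no holonomy at elements of finite order, it has a potential with the help of which its pull-back
to the words becomes invariant. So the words with large period contribute multiples of a high power
of `p`, and the words with a small period take values of very large `p`-power order.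
-/

set_option autoImplicit false

namespace Pool.Agent.Results.MP_490288_al.TorsionDennisTrace

open Pool.Agent.T9h42

universe u v w

/-- Let `R` be a commutative ring, `M` an `R`-module without `ℤ`-torsion and `G` a group. Let `f` be
a Hochschild `1`-cocycle on `G` with values in `M` such that `f x y = 0` unless `x y` has finite
order divisible by some prime `p` for which no nonzero element of `M` is divisible by all powers of
`p`. Then `f` vanishes on the Dennis trace of every invertible matrix over `R[G]`. -/
theorem result (R : Type u) [CommRing R] (M : Type v) [AddCommGroup M] [Module R M]
    (htf : ∀ (n : ℕ) (x : M), 0 < n → n • x = 0 → x = 0)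
    (G : Type w) [Group G] (f : G → G → M)
    (hf : ∀ x y z : G, f (x * y) z - f x (y * z) + f (z * x) y = 0)
    (hX : ∀ x y : G, f x y ≠ 0 → 0 < orderOf (x * y) ∧ ∃ p : ℕ, p.Prime ∧ p ∣ orderOf (x * y) ∧
      ∀ m : M, (∀ k : ℕ, ∃ y : M, m = p ^ k • y) → m = 0)
    (n : ℕ) (A : (Matrix (Fin n) (Fin n) (MonoidAlgebra R G))ˣ) :
    (∑ i, ∑ j, ((A⁻¹).val i j).coeff.sum fun g b =>
        (A.val j i).coeff.sum fun h a => (b * a) • f g h) = 0 :=
  prg_sing_all f hf htf hX A.mul_inv A.inv_mul

end Pool.Agent.Results.MP_490288_al.TorsionDennisTrace
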