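import Pool.Agent.T9h15.KN.Gen
import Pool.Agent.T9h15.FC.WhC

/-!
# `K₁` of the group ring of a group acting on a tree

Let `R` be a ring and let `Γ` be a group acting without inversions on a tree `T` with the vertex
set `V`. Suppose that for some `m ≥ 1` the ring `R[Γ_x ∩ Γ_y]` is regular and coherent for all
vertices `x`, `y` of distance `m`.

Then `K₁(R[Γ])` is generated by the images of the groups `K₁(R[Γ_v])`, `v ∈ V`, and the classes of
the invertible matrices which are split over the tree, i.e. the relative assembly map
`H₁^Γ(T; K_R) → K₁(R[Γ])` is onto.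

If moreover `R` has invariant basis number and the finitely generated projective modules over the
rings `R[Γ_x ∩ Γ_y]` for adjacent `x`, `y` are stably free, then `K₁(R[Γ])` is generated by the
images of the groups `K₁(R[Γ_v])` and the classes of the elements of `Γ`.

For `m = 1` this is a theorem of Waldhausen. For `m > 1` the condition is weaker: no regularity is
assumed for the stabilisers of the edges.

Let `TreeClassOne` be the smallest class of groups which contains the trivial group, is closed under
directed unions and contains each group `Γ` acting without inversions on a tree such that the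
stabilisers of the vertices and edges are in the class and such that for some `m ≥ 1` the groups
`Γ_x ∩ Γ_y`, `x` and `y` of distance `m`, are locally of the form `F_r × ℤⁿ`. For the groups of this
class `K₁(R[Γ])` is generated by the image of `K₁(R)` and the classes of the elements of `Γ`, for
`R = ℤ` and each nonzero commutative Noetherian ring `R` over which the finitely generated modules
have finite free resolutions. So `Wh(Γ) = 0`, as `K₁(ℤ) = {±1}`.
-/

set_option autoImplicit false

namespace Pool.Agent.Results.MP_490288_al.TreeActionsKOne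

open H970SH Pool.Agent.Y69 Pool.Agent.T9h15.KN Pool.Agent.T9h15.FC

/-- The invertible matrix `η` over `R[Γ]` is split over the tree `T`: there are edges `(a_k, b_k)`
and vertices `ν_l` of the tree and an idempotent matrix `p` such that

* `p(k, l)` is supported on the elements of `Γ` which map the edge `(a_l, b_l)` to `(a_k, b_k)`,
* `(p η)(k, l)` and `((1 - p) η)(k, l)` are supported on the elements which map `ν_l` to `a_k`,
  respectively to `b_k`, and
* `(η⁻¹ p)(k, l)` and `(η⁻¹ (1 - p))(k, l)` are supported on the elements which map `a_l`,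
  respectively `b_l`, to `ν_k`.

So `η` is an isomorphism over the rings `R[Γ_v]` from the module induced from the modules `im p`
at the vertices `a` and `im (1 - p)` at the vertices `b` of the edges to the free module with the
labels `ν`. -/
def SplitMatrix {R Γ V : Type} [Ring R] [Group Γ] [MulAction Γ V] (T : SimpleGraph V) {n : ℕ}
    (η : (Matrix (Fin n) (Fin n) (MonoidAlgebra R Γ))ˣ) : Prop :=
  ∃ (a b ν : Fin n → V) (p : Matrix (Fin n) (Fin n) (MonoidAlgebra R Γ)),
    (∀ k, T.Adj (a k) (b k)) ∧ p * p = p ∧
    (∀ k l g, (p k l).coeff g ≠ 0 → g • a l = a k ∧ g • b l = b k) ∧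
    (∀ k l g, ((p * η.val) k l).coeff g ≠ 0 → g • ν l = a k) ∧
    (∀ k l g, (((1 - p) * η.val) k l).coeff g ≠ 0 → g • ν l = b k) ∧
    (∀ k l g, (((η⁻¹).val * p) k l).coeff g ≠ 0 → g • a l = ν k) ∧
    (∀ k l g, (((η⁻¹).val * (1 - p)) k l).coeff g ≠ 0 → g • b l = ν k)

/-- The subgroup of `K₁(R[Γ])` generated by the images of the groups `K₁(R[Γ_v])` for the
stabilisers `Γ_v` of the vertices and the classes of the matrices which are split over `T`. -/
def splitPart (R Γ V : Type) [Ring R] [Group Γ] [MulAction Γ V] (T : SimpleGraph V) :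
    AddSubgroup (K1 (MonoidAlgebra R Γ)) :=
  AddSubgroup.closure
    ({c | ∃ (v : V) (x : K1 (MonoidAlgebra R (MulAction.stabilizer Γ v))),
        c = K1map (MonoidAlgebra.mapDomainRingHom R (MulAction.stabilizer Γ v).subtype) x} ∪
      {c | ∃ (n : ℕ) (η : (Matrix (Fin n) (Fin n) (MonoidAlgebra R Γ))ˣ),
        SplitMatrix T η ∧ c = K1.mk η})

/-- The subgroup of `K₁(R[Γ])` generated by the images of the groups `K₁(R[Γ_v])` for the
stabilisers `Γ_v` of the points `v ∈ V` and the classes of the invertible `1 × 1` matrices `(g)`,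
`g ∈ Γ`. -/
def vertexPart (R Γ V : Type) [Ring R] [Group Γ] [MulAction Γ V] :
    AddSubgroup (K1 (MonoidAlgebra R Γ)) :=
  AddSubgroup.closure
    ({c | ∃ (v : V) (x : K1 (MonoidAlgebra R (MulAction.stabilizer Γ v))),
        c = K1map (MonoidAlgebra.mapDomainRingHom R (MulAction.stabilizer Γ v).subtype) x} ∪
      {c | ∃ (g : Γ) (M : (Matrix (Fin 1) (Fin 1) (MonoidAlgebra R Γ))ˣ),
        (M : Matrix (Fin 1) (Fin 1) (MonoidAlgebra R Γ)) 0 0 = MonoidAlgebra.of R Γ g ∧
          c = K1.mk M})

/-- (a) Let the group `Γ` act without inversions on the tree `T`, and let for some `m ≥ 1` the rings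
`R[Γ_x ∩ Γ_y]` for `x`, `y` of distance `m` be regular and coherent. Then `K₁(R[Γ])` is generated
by the images of the `K₁(R[Γ_v])` and the classes of the matrices which are split over `T`. If
moreover `R` has invariant basis number and the finitely generated projective modules over
`R[Γ_x ∩ Γ_y]` are stably free for adjacent `x`, `y`, then `K₁(R[Γ])` is generated by the images of
the `K₁(R[Γ_v])` and the classes of the elements of `Γ`.

(b) Let `Γ` be a group of the class `TreeClassOne`. Then `K₁(R[Γ])` is generated by the image of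
`K₁(R)` and the classes of the elements of `Γ`, for `R = ℤ` and for each nonzero commutative
Noetherian ring `R` over which the finitely generated modules have finite free resolutions. -/
theorem result :
    (∀ (R : Type) [Ring R] (Γ : Type) [Group Γ] (V : Type)
      [MulAction Γ V] (T : SimpleGraph V), T.IsTree →
      (∀ (g : Γ) (u v : V), T.Adj u v → T.Adj (g • u) (g • v)) →
      (∀ (g : Γ) (u v : V), T.Adj u v → ¬ (g • u = v ∧ g • v = u)) →
      ∀ m : ℕ, 1 ≤ m →
      (∀ x y : V, T.dist x y = m → RegCoh (MonoidAlgebra R
        (MulAction.stabilizer Γ x ⊓ MulAction.stabilizer Γ y : Subgroup Γ))) →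
      splitPart R Γ V T = ⊤ ∧
        (InvariantBasisNumber R →
          (∀ x y : V, T.Adj x y → SFree (MonoidAlgebra R
            (MulAction.stabilizer Γ x ⊓ MulAction.stabilizer Γ y : Subgroup Γ))) →
          vertexPart R Γ V = ⊤)) ∧
    ∀ (Γ : Type) [Group Γ], TreeClassOne Γ → unitPart ℤ Γ = ⊤ ∧
      ∀ (R : Type) [CommRing R] [Nontrivial R], IsNoetherianRing R →
        (∀ (M : Type) [AddCommGroup M] [Module R M], Module.Finite R M → HasFFR R M) →
        unitPart R Γ = ⊤ := by
  refine ⟨fun R _ Γ _ V _ T hT hact hinv m hm hreg => ?_, fun Γ _ h =>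
    ⟨unitPart_class h ℤ Pool.Agent.T9h82.FC.ffz,
      fun R _ _ h1 h2 => unitPart_class h R ⟨h1, h2⟩⟩⟩
  obtain ⟨n, rfl⟩ : ∃ n, m = n + 1 := ⟨m - 1, by omega⟩
  refine ⟨?_, fun hibn hproj => ?_⟩
  · refine k1_split hT hact hinv n hreg _
      (fun v x => AddSubgroup.subset_closure (Or.inl ⟨v, x, rfl⟩)) (fun {κ} _ _ η hη => ?_)
    refine AddSubgroup.subset_closure (Or.inr ⟨Fintype.card κ,
      H842.reindexUnit (R := MonoidAlgebra R Γ) (Fintype.equivFin κ) η, ?_, rfl⟩)
    exact SplitU.reindex (Fintype.equivFin κ) hη
      (H842.reindexUnit (R := MonoidAlgebra R Γ) (Fintype.equivFin κ) η) rfl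
  · exact k1_tree hT hact hinv hproj n hreg _
      (fun v x => AddSubgroup.subset_closure (Or.inl ⟨v, x, rfl⟩))
      (fun g M hM => AddSubgroup.subset_closure (Or.inr ⟨g, M, hM, rfl⟩))

end Pool.Agent.Results.MP_490288_al.TreeActionsKOne
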